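import Pool.Agent.H7.MIC.Var

/-!
# Paths of frames, planks

Frames `(g k, Φ k)`, `k ≤ s`, such that neighbouring frames agree on the natural box of the first
one up to the factor `E`. The base coordinates are of two kinds: the boxes of the coordinates which
are not `up` grow along the path, a point is compared with the sample point `X` in the frame `0`;
the boxes of the coordinates which are `up` shrink along the path, a point is compared with the
sample point in the frame `s`. `σ k` is the relative distance in the frame `k`. Then the distance in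
every frame is `σ k` up to a power of `N E`, `N ≥ s`: the exponent does not depend on the number of
steps.
-/

set_option autoImplicit false

namespace Pool.MIC24

open Finset Real MvPolynomial
open Pool.STAT Pool.MIC.Frm Pool.MIC7

/-- A path of frames with boxes which grow or shrink. -/
structure Pth2 (n K s : ℕ) (g : ℕ → ℕ → ℕ) (Φ : ℕ → ℕ → PN) (X : ℕ → ℝ) (σ : ℕ → ℝ)
    (up : ℕ → Prop) (N E : ℝ) : Prop where
  sN : (s : ℝ) ≤ N
  N1 : 1 ≤ N
  E1 : 1 ≤ E
  tri : ∀ k ≤ s, TriN (Φ k)
  deg : ∀ k ≤ s, ∀ i ≤ n, (Φ k i).totalDegree ≤ K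
  rp : ∀ k ≤ s, 0 < σ k
  r1 : ∀ k ≤ s, σ k ≤ 1
  pos : ∀ k ≤ s, ∀ i < n, |nat (g k) (Φ k) X i| ≤ 1
  lev0 : ∀ i, 1 ≤ i → i < n → ¬ up i → ∀ k ≤ s, ∀ k' ≤ k,
    (2 : ℝ) ^ g k i * σ k' ≤ E * σ k * 2 ^ g k' i
  levs : ∀ i, 1 ≤ i → i < n → up i → ∀ k' ≤ s, ∀ k ≤ k',
    (2 : ℝ) ^ g k i * σ k' ≤ E * σ k * 2 ^ g k' i
  adj : ∀ k < s, ∀ l, 1 ≤ l → l ≤ n → ∀ b : ℕ → ℝ, (∀ i < l, |nat (g k) (Φ k) b i| ≤ 1) →
    |eval b (Φ k l) - eval b (Φ (k + 1) l)| ≤ E / 2 ^ g k l

theorem pth2_aux (n K : ℕ) : ∀ m ≤ n, ∃ (C : ℝ) (D : ℕ), 1 ≤ C ∧ ∀ (s : ℕ) (g : ℕ → ℕ → ℕ)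
    (Φ : ℕ → ℕ → PN) (X : ℕ → ℝ) (σ : ℕ → ℝ) (up : ℕ → Prop) (N E A : ℝ),
    Pth2 n K s g Φ X σ up N E → 1 ≤ A → ∀ b : ℕ → ℝ, b 0 = X 0 →
    (∀ i, 1 ≤ i → i < n → ¬ up i → |nat (g 0) (Φ 0) b i - nat (g 0) (Φ 0) X i| ≤ A * σ 0) →
    (∀ i, 1 ≤ i → i < n → up i → |nat (g s) (Φ s) b i - nat (g s) (Φ s) X i| ≤ A * σ s) →
    (∀ k ≤ s, ∀ i < m, |nat (g k) (Φ k) b i - nat (g k) (Φ k) X i| ≤
      C * (N * E * A) ^ D * σ k) ∧
    ∀ k < s, ∀ l ≤ m, |(eval b (Φ k l) - eval b (Φ (k + 1) l)) -
      (eval X (Φ k l) - eval X (Φ (k + 1) l))| ≤ C * (N * E * A) ^ D * σ k / 2 ^ g k l := by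
  obtain ⟨C₀, D₀, hC₀, h₀⟩ := vr n K
  intro m
  induction m with
  | zero =>
    intro _
    refine ⟨1, 0, le_rfl, ?_⟩
    intro s g Φ X σ up N E A H hA b b0 hb hb'
    refine ⟨fun k _ _ hi => absurd hi (Nat.not_lt_zero _), fun k hk l hl => ?_⟩
    obtain rfl : l = 0 := by omega
    have := H.rp k hk.le
    rw [ev_zero (H.tri k hk.le 0) b X, ev_zero (H.tri (k + 1) hk 0) b X, sub_self, abs_zero]
    positivity
  | succ m ih =>
    intro hm
    obtain ⟨C, D, hC, h⟩ := ih (by omega)
    have hC0 : 0 < C := by linarith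
    set C₂ := C₀ * (1 + (2 + C)) ^ D₀ * (2 + C) with hC₂
    set D₂ := (D + 1) * D₀ + 1 + (D + 1) with hD₂
    have hC₂0 : 0 < C₂ := by rw [hC₂]; positivity
    refine ⟨(2 + C) + C₂, (D + 1) + D₂, by linarith, ?_⟩
    intro s g Φ X σ up N E A H hA b b0 hb hb'
    obtain ⟨h1, h2⟩ := h s g Φ X σ up N E A H hA b b0 hb hb'
    have hN := H.N1
    have hE := H.E1
    set W := N * E * A with hW
    have hNE : 1 ≤ N * E := one_le_mul_of_one_le_of_one_le hN hE
    have hW1 : 1 ≤ W := one_le_mul_of_one_le_of_one_le hNE hA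
    have hW0 : 0 < W := by linarith
    have hEW : E ≤ W := by
      rw [hW]
      have : E * 1 ≤ E * (N * A) :=
        mul_le_mul_of_nonneg_left (one_le_mul_of_one_le_of_one_le hN hA) (by linarith)
      nlinarith
    have hNEW : N * E ≤ W := by
      rw [hW]
      nlinarith
    have hEAW : E * A ≤ W := by
      rw [hW]
      have h0 : 0 < E * A := by nlinarith
      nlinarith
    have a5 : W ≤ W ^ (D + 1) := by
      have := pow_le_pow_right₀ hW1 (show 1 ≤ D + 1 by omega)
      rwa [pow_one] at this
    -- a sum over the path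
    have sumb : ∀ (k a c i : ℕ), k ≤ s → c ≤ s → i = m → (∀ k' ∈ Ico a c,
        (2 : ℝ) ^ g k i * σ k' ≤ E * σ k * 2 ^ g k' i) →
        |∑ k' ∈ Ico a c, 2 ^ g k i * ((eval b (Φ k' i) - eval b (Φ (k' + 1) i)) -
          (eval X (Φ k' i) - eval X (Φ (k' + 1) i)))| ≤ C * W ^ D * W * σ k := by
      intro k a c i hk hc him hlev
      have rk := H.rp k hk
      have t2 : ∀ k' ∈ Ico a c, |(2 : ℝ) ^ g k i * ((eval b (Φ k' i) -
          eval b (Φ (k' + 1) i)) - (eval X (Φ k' i) - eval X (Φ (k' + 1) i)))| ≤
          C * W ^ D * E * σ k := by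
        intro k' hk'
        have hk2 := mem_Ico.1 hk'
        have a1 := h2 k' (by omega) i him.le
        have a2 := hlev k' hk'
        have a3 := H.rp k' (by omega)
        rw [abs_mul, abs_of_pos (by positivity)]
        calc (2 : ℝ) ^ g k i * _ ≤ 2 ^ g k i * (C * W ^ D * σ k' / 2 ^ g k' i) :=
              mul_le_mul_of_nonneg_left a1 (by positivity)
          _ = C * W ^ D * (2 ^ g k i * σ k' / 2 ^ g k' i) := by ring
          _ ≤ C * W ^ D * (E * σ k) := by
              refine mul_le_mul_of_nonneg_left ?_ (by positivity)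
              rw [div_le_iff₀ (by positivity)]
              exact a2
          _ = C * W ^ D * E * σ k := by ring
      refine (abs_sum_le_sum_abs _ _).trans ((sum_le_sum t2).trans ?_)
      rw [sum_const, Nat.card_Ico, nsmul_eq_mul]
      have a4 : ((c - a : ℕ) : ℝ) ≤ N := by
        have h3 : c - a ≤ s := by omega
        exact le_trans (by exact_mod_cast h3) H.sN
      calc ((c - a : ℕ) : ℝ) * (C * W ^ D * E * σ k) ≤ N * (C * W ^ D * E * σ k) :=
            mul_le_mul_of_nonneg_right a4 (by positivity)
        _ = C * W ^ D * (N * E) * σ k := by ring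
        _ ≤ C * W ^ D * W * σ k := by
            refine mul_le_mul_of_nonneg_right ?_ rk.le
            exact mul_le_mul_of_nonneg_left hNEW (by positivity)
    -- the telescope
    have tele : ∀ (i a : ℕ) (k : ℕ), (eval b (Φ (a + k) i) - eval X (Φ (a + k) i)) =
        (eval b (Φ a i) - eval X (Φ a i)) -
          ∑ k' ∈ Ico a (a + k), ((eval b (Φ k' i) - eval b (Φ (k' + 1) i)) -
            (eval X (Φ k' i) - eval X (Φ (k' + 1) i))) := by
      intro i a k
      induction k with
      | zero => simp
      | succ k ihk =>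
        rw [← add_assoc, sum_Ico_succ_top (Nat.le_add_right a k), ← sub_sub, ← ihk]
        ring
    -- the coordinate m
    have g1 : ∀ k ≤ s, ∀ i < m + 1, |nat (g k) (Φ k) b i - nat (g k) (Φ k) X i| ≤
        (2 + C) * W ^ (D + 1) * σ k := by
      intro k hk i hi
      have rk := H.rp k hk
      rcases Nat.lt_or_ge i m with hi' | hi'
      · refine (h1 k hk i hi').trans (mul_le_mul_of_nonneg_right ?_ rk.le)
        refine mul_le_mul (by linarith) (pow_le_pow_right₀ hW1 (Nat.le_succ _)) (by positivity)
          (by linarith)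
      · obtain rfl : i = m := by omega
        rcases Nat.eq_zero_or_pos i with rfl | hi0
        · unfold nat
          rw [ev_zero (H.tri k hk 0) b X, b0, sub_self, abs_zero]
          positivity
        have fin : ∀ (x y : ℝ), |x| ≤ E * A * σ k → |y| ≤ C * W ^ D * W * σ k →
            |x + y| ≤ (2 + C) * W ^ (D + 1) * σ k := by
          intro x y hx hy
          refine (abs_add_le _ _).trans ((add_le_add hx hy).trans ?_)
          calc E * A * σ k + C * W ^ D * W * σ k ≤ W * σ k + C * W ^ D * W * σ k := by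
                have := mul_le_mul_of_nonneg_right hEAW rk.le
                linarith
            _ = (W + C * W ^ (D + 1)) * σ k := by
                rw [pow_succ]
                ring
            _ ≤ (2 * W ^ (D + 1) + C * W ^ (D + 1)) * σ k := by
                refine mul_le_mul_of_nonneg_right ?_ rk.le
                have : 0 < W ^ (D + 1) := by positivity
                linarith
            _ = (2 + C) * W ^ (D + 1) * σ k := by ring
        by_cases hup : up i
        · -- compare with the frame s
          have e2 : nat (g k) (Φ k) b i - nat (g k) (Φ k) X i =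
              2 ^ g k i / 2 ^ g s i * (nat (g s) (Φ s) b i - nat (g s) (Φ s) X i) +
              (-∑ k' ∈ Ico k s, 2 ^ g k i * ((eval b (Φ k' i) - eval b (Φ (k' + 1) i)) -
                (eval X (Φ k' i) - eval X (Φ (k' + 1) i)))) := by
            have e3 := tele i k (s - k)
            rw [show k + (s - k) = s by omega] at e3
            rw [← mul_sum]
            unfold nat
            have e4 : (2 : ℝ) ^ g k i / 2 ^ g s i * (2 ^ g s i * (b i - eval b (Φ s i)) -
                2 ^ g s i * (X i - eval X (Φ s i))) =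
                2 ^ g k i * ((b i - eval b (Φ s i)) - (X i - eval X (Φ s i))) := by
              field_simp
            rw [e4, ← mul_sub, ← mul_neg, ← mul_add]
            congr 1
            linarith
          rw [e2]
          have l0 := H.levs i hi0 (by omega) hup s le_rfl k hk
          refine fin _ _ ?_ ?_
          · rw [abs_mul, abs_of_pos (by positivity)]
            have rs := H.rp s le_rfl
            have a2 := hb' i hi0 (by omega) hup
            calc (2 : ℝ) ^ g k i / 2 ^ g s i * |nat (g s) (Φ s) b i - nat (g s) (Φ s) X i|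
                ≤ 2 ^ g k i / 2 ^ g s i * (A * σ s) :=
                  mul_le_mul_of_nonneg_left a2 (by positivity)
              _ = A * (2 ^ g k i * σ s / 2 ^ g s i) := by ring
              _ ≤ A * (E * σ k) := by
                  refine mul_le_mul_of_nonneg_left ?_ (by linarith)
                  rw [div_le_iff₀ (by positivity)]
                  exact l0
              _ = E * A * σ k := by ring
          · rw [abs_neg]
            refine sumb k k s i hk le_rfl rfl fun k' hk' => ?_
            exact H.levs i hi0 (by omega) hup k' (by have := mem_Ico.1 hk'; omega) k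
              (mem_Ico.1 hk').1
        · -- compare with the frame 0
          have e2 : nat (g k) (Φ k) b i - nat (g k) (Φ k) X i =
              2 ^ g k i / 2 ^ g 0 i * (nat (g 0) (Φ 0) b i - nat (g 0) (Φ 0) X i) +
              ∑ k' ∈ Ico 0 k, 2 ^ g k i * ((eval b (Φ k' i) - eval b (Φ (k' + 1) i)) -
                (eval X (Φ k' i) - eval X (Φ (k' + 1) i))) := by
            have e3 := tele i 0 k
            rw [zero_add] at e3
            rw [← mul_sum]
            unfold nat
            have e4 : (2 : ℝ) ^ g k i / 2 ^ g 0 i * (2 ^ g 0 i * (b i - eval b (Φ 0 i)) -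
                2 ^ g 0 i * (X i - eval X (Φ 0 i))) =
                2 ^ g k i * ((b i - eval b (Φ 0 i)) - (X i - eval X (Φ 0 i))) := by
              field_simp
            rw [e4, ← mul_sub, ← mul_add]
            congr 1
            linarith
          rw [e2]
          have l0 := H.lev0 i hi0 (by omega) hup k hk 0 (Nat.zero_le _)
          refine fin _ _ ?_ ?_
          · rw [abs_mul, abs_of_pos (by positivity)]
            have a2 := hb i hi0 (by omega) hup
            calc (2 : ℝ) ^ g k i / 2 ^ g 0 i * |nat (g 0) (Φ 0) b i - nat (g 0) (Φ 0) X i|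
                ≤ 2 ^ g k i / 2 ^ g 0 i * (A * σ 0) :=
                  mul_le_mul_of_nonneg_left a2 (by positivity)
              _ = A * (2 ^ g k i * σ 0 / 2 ^ g 0 i) := by ring
              _ ≤ A * (E * σ k) := by
                  refine mul_le_mul_of_nonneg_left ?_ (by linarith)
                  rw [div_le_iff₀ (by positivity)]
                  exact l0
              _ = E * A * σ k := by ring
          · refine sumb k 0 k i hk hk rfl fun k' hk' => ?_
            exact H.lev0 i hi0 (by omega) hup k hk k' (mem_Ico.1 hk').2.le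
    refine ⟨fun k hk i hi => ?_, fun k hk l hl => ?_⟩
    · have rk := H.rp k hk
      refine (g1 k hk i hi).trans (mul_le_mul_of_nonneg_right ?_ rk.le)
      exact mul_le_mul (by linarith) (pow_le_pow_right₀ hW1 (by omega)) (by positivity)
        (by linarith)
    · have rk := H.rp k hk.le
      rcases Nat.lt_or_ge m l with hl' | hl'
      · obtain rfl : l = m + 1 := by omega
        have hb1 : ∀ i < m + 1, |nat (g k) (Φ k) X i| ≤ 1 + (2 + C) * W ^ (D + 1) := by
          intro i hi
          have := H.pos k hk.le i (by omega)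
          have : 0 ≤ (2 + C) * W ^ (D + 1) := by positivity
          linarith
        have hb2 : ∀ i < m + 1, |nat (g k) (Φ k) b i| ≤ 1 + (2 + C) * W ^ (D + 1) := by
          intro i hi
          have a1 := g1 k hk.le i hi
          have a2 := H.pos k hk.le i (by omega)
          have a3 : (2 + C) * W ^ (D + 1) * σ k ≤ (2 + C) * W ^ (D + 1) * 1 :=
            mul_le_mul_of_nonneg_left (H.r1 k hk.le) (by positivity)
          have a4 := abs_add_le (nat (g k) (Φ k) b i - nat (g k) (Φ k) X i)
            (nat (g k) (Φ k) X i)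
          rw [sub_add_cancel] at a4
          linarith
        have main := h₀ (m + 1) (g k) (Φ k) (Φ k (m + 1) - Φ (k + 1) (m + 1))
          (E / 2 ^ g k (m + 1)) (1 + (2 + C) * W ^ (D + 1)) ((2 + C) * W ^ (D + 1) * σ k) b X
          hm (H.tri k hk.le) (fun i hi => H.deg k hk.le i (by omega)) (by
            have : 0 ≤ (2 + C) * W ^ (D + 1) := by positivity
            linarith) (by positivity) (by positivity)
          (AdxRow.vars_sub_le (H.tri k hk.le (m + 1)) (H.tri (k + 1) hk (m + 1)))
          ((totalDegree_sub _ _).trans (max_le (H.deg k hk.le _ hm) (H.deg (k + 1) hk _ hm)))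
          (fun b hb => by
            rw [map_sub]
            exact H.adj k hk (m + 1) (by omega) hm b hb)
          hb2 hb1 (g1 k hk.le)
        rw [map_sub, map_sub] at main
        refine main.trans ?_
        have b1 : 1 + (2 + C) * W ^ (D + 1) ≤ (1 + (2 + C)) * W ^ (D + 1) := by
          have := one_le_pow₀ (n := D + 1) hW1
          nlinarith
        have b2 : (1 + (2 + C) * W ^ (D + 1)) ^ D₀ ≤ (1 + (2 + C)) ^ D₀ * W ^ ((D + 1) * D₀) := by
          rw [pow_mul, ← mul_pow]
          exact pow_le_pow_left₀ (by positivity) b1 _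
        calc C₀ * (1 + (2 + C) * W ^ (D + 1)) ^ D₀ * (E / 2 ^ g k (m + 1)) *
              ((2 + C) * W ^ (D + 1) * σ k)
            ≤ C₀ * ((1 + (2 + C)) ^ D₀ * W ^ ((D + 1) * D₀)) * (W / 2 ^ g k (m + 1)) *
              ((2 + C) * W ^ (D + 1) * σ k) := by
              refine mul_le_mul_of_nonneg_right ?_ (by positivity)
              refine mul_le_mul (mul_le_mul_of_nonneg_left b2 (by linarith))
                (div_le_div_of_nonneg_right hEW (by positivity)) (by positivity) (by positivity)
          _ = C₂ * W ^ D₂ * σ k / 2 ^ g k (m + 1) := by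
              rw [hC₂, hD₂, pow_add, pow_add, pow_one]
              ring
          _ ≤ (2 + C + C₂) * W ^ (D + 1 + D₂) * σ k / 2 ^ g k (m + 1) := by
              refine div_le_div_of_nonneg_right ?_ (by positivity)
              refine mul_le_mul_of_nonneg_right ?_ rk.le
              exact mul_le_mul (by linarith) (pow_le_pow_right₀ hW1 (by omega)) (by positivity)
                (by positivity)
      · refine (h2 k hk l hl').trans ?_
        refine div_le_div_of_nonneg_right ?_ (by positivity)
        refine mul_le_mul_of_nonneg_right ?_ rk.le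
        exact mul_le_mul (by linarith) (pow_le_pow_right₀ hW1 (by omega)) (by positivity)
          (by positivity)

/-- **Paths of frames with growing and shrinking boxes.** -/
theorem pth2 (n K : ℕ) : ∃ (C : ℝ) (D : ℕ), 1 ≤ C ∧ ∀ (s : ℕ) (g : ℕ → ℕ → ℕ)
    (Φ : ℕ → ℕ → PN) (X : ℕ → ℝ) (σ : ℕ → ℝ) (up : ℕ → Prop) (N E A : ℝ),
    Pth2 n K s g Φ X σ up N E → 1 ≤ A → ∀ b : ℕ → ℝ, b 0 = X 0 →
    (∀ i, 1 ≤ i → i < n → ¬ up i → |nat (g 0) (Φ 0) b i - nat (g 0) (Φ 0) X i| ≤ A * σ 0) →
    (∀ i, 1 ≤ i → i < n → up i → |nat (g s) (Φ s) b i - nat (g s) (Φ s) X i| ≤ A * σ s) →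
    (∀ k ≤ s, ∀ i < n, |nat (g k) (Φ k) b i - nat (g k) (Φ k) X i| ≤
      C * (N * E * A) ^ D * σ k) ∧
    ∀ k < s, ∀ l ≤ n, |(eval b (Φ k l) - eval b (Φ (k + 1) l)) -
      (eval X (Φ k l) - eval X (Φ (k + 1) l))| ≤ C * (N * E * A) ^ D * σ k / 2 ^ g k l :=
  pth2_aux n K n le_rfl

end Pool.MIC24
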