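import Pool.Agent.H24.MIC.Pth2

/-!
# Paths of frames, second differences

Four points `b 0, b 1, b 2, b 3`; `b 0 - b 1`, `b 2 - b 3` are of the relative size `σ k` and
`b 0 - b 2` of the relative size `τ k` in the frame `k`. If the second difference
`b 0 - b 1 - b 2 + b 3` is of the size `W k ≥ σ k τ k` in the frame `0` for the coordinates whose
boxes grow and in the frame `s` for the coordinates whose boxes shrink, then in every frame, up to a
power of `N E`; and the second difference of the changes of the labels is of this size in natural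
units.
-/

set_option autoImplicit false

namespace Pool.MIC24

open Finset Real MvPolynomial
open Pool.STAT Pool.MIC.Frm Pool.MIC7

/-- Four numbers with small differences and a small second difference. -/
structure T4 (σ τ W c : ℝ) (h : Fin 4 → ℝ) : Prop where
  le : ∀ i, |h i| ≤ c
  w1 : |h 0 - h 1| ≤ c * σ
  w2 : |h 2 - h 3| ≤ c * σ
  v1 : |h 0 - h 2| ≤ c * τ
  v2 : |h 1 - h 3| ≤ c * τ
  dd : |h 0 - h 1 - h 2 + h 3| ≤ c * W

section T4

variable {σ τ W c c' : ℝ} {h h' : Fin 4 → ℝ}

theorem T4.mono (H : T4 σ τ W c h) (hc : c ≤ c') (hσ : 0 ≤ σ) (hτ : 0 ≤ τ) (hW : 0 ≤ W) :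
    T4 σ τ W c' h where
  le i := (H.le i).trans hc
  w1 := H.w1.trans (mul_le_mul_of_nonneg_right hc hσ)
  w2 := H.w2.trans (mul_le_mul_of_nonneg_right hc hσ)
  v1 := H.v1.trans (mul_le_mul_of_nonneg_right hc hτ)
  v2 := H.v2.trans (mul_le_mul_of_nonneg_right hc hτ)
  dd := H.dd.trans (mul_le_mul_of_nonneg_right hc hW)

theorem T4.nonneg (H : T4 σ τ W c h) : 0 ≤ c := (abs_nonneg _).trans (H.le 0)

theorem t4_const (hσ : 0 ≤ σ) (hτ : 0 ≤ τ) (hW : 0 ≤ W) (a : ℝ) :
    T4 σ τ W |a| (fun _ => a) where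
  le _ := le_rfl
  w1 := by
    rw [sub_self, abs_zero]
    positivity
  w2 := by
    rw [sub_self, abs_zero]
    positivity
  v1 := by
    rw [sub_self, abs_zero]
    positivity
  v2 := by
    rw [sub_self, abs_zero]
    positivity
  dd := by
    rw [sub_self, zero_sub, neg_add_cancel, abs_zero]
    positivity

theorem T4.add (H : T4 σ τ W c h) (H' : T4 σ τ W c' h') :
    T4 σ τ W (c + c') (fun i => h i + h' i) where
  le i := (abs_add_le _ _).trans (add_le_add (H.le i) (H'.le i))
  w1 := by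
    rw [show h 0 + h' 0 - (h 1 + h' 1) = (h 0 - h 1) + (h' 0 - h' 1) by ring, add_mul]
    exact (abs_add_le _ _).trans (add_le_add H.w1 H'.w1)
  w2 := by
    rw [show h 2 + h' 2 - (h 3 + h' 3) = (h 2 - h 3) + (h' 2 - h' 3) by ring, add_mul]
    exact (abs_add_le _ _).trans (add_le_add H.w2 H'.w2)
  v1 := by
    rw [show h 0 + h' 0 - (h 2 + h' 2) = (h 0 - h 2) + (h' 0 - h' 2) by ring, add_mul]
    exact (abs_add_le _ _).trans (add_le_add H.v1 H'.v1)
  v2 := by
    rw [show h 1 + h' 1 - (h 3 + h' 3) = (h 1 - h 3) + (h' 1 - h' 3) by ring, add_mul]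
    exact (abs_add_le _ _).trans (add_le_add H.v2 H'.v2)
  dd := by
    rw [show h 0 + h' 0 - (h 1 + h' 1) - (h 2 + h' 2) + (h 3 + h' 3) =
      (h 0 - h 1 - h 2 + h 3) + (h' 0 - h' 1 - h' 2 + h' 3) by ring, add_mul]
    exact (abs_add_le _ _).trans (add_le_add H.dd H'.dd)

/-- A bound for a difference of products. -/
theorem abs_mul_sub {a b a' b' C C' x : ℝ} (ha : |a| ≤ C) (hb' : |b'| ≤ C')
    (hab : |a - b| ≤ C * x) (hab' : |a' - b'| ≤ C' * x) (hC : 0 ≤ C) :
    |a * a' - b * b'| ≤ 2 * (C * C') * x := by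
  have e : a * a' - b * b' = a * (a' - b') + (a - b) * b' := by ring
  rw [e]
  refine (abs_add_le _ _).trans ?_
  rw [abs_mul, abs_mul]
  have h1 : |a| * |a' - b'| ≤ C * (C' * x) := mul_le_mul ha hab' (abs_nonneg _) hC
  have h2 : |a - b| * |b'| ≤ C * x * C' := by
    have h3 := (abs_nonneg _).trans hab
    exact mul_le_mul hab hb' (abs_nonneg _) h3
  linarith

theorem T4.mul (H : T4 σ τ W c h) (H' : T4 σ τ W c' h') (hσ : 0 ≤ σ) (hτ : 0 ≤ τ)
    (hW : σ * τ ≤ W) : T4 σ τ W (4 * c * c') (fun i => h i * h' i) := by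
  have hc := H.nonneg
  have hc' := H'.nonneg
  have hcc : 0 ≤ c * c' := mul_nonneg hc hc'
  have hW0 : 0 ≤ W := (mul_nonneg hσ hτ).trans hW
  refine ⟨fun i => ?_, ?_, ?_, ?_, ?_, ?_⟩
  · rw [abs_mul]
    have := mul_le_mul (H.le i) (H'.le i) (abs_nonneg _) hc
    linarith
  · have := abs_mul_sub (H.le 0) (H'.le 1) H.w1 H'.w1 hc
    nlinarith [mul_nonneg hcc hσ]
  · have := abs_mul_sub (H.le 2) (H'.le 3) H.w2 H'.w2 hc
    nlinarith [mul_nonneg hcc hσ]
  · have := abs_mul_sub (H.le 0) (H'.le 2) H.v1 H'.v1 hc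
    nlinarith [mul_nonneg hcc hτ]
  · have := abs_mul_sub (H.le 1) (H'.le 3) H.v2 H'.v2 hc
    nlinarith [mul_nonneg hcc hτ]
  · have e : h 0 * h' 0 - h 1 * h' 1 - h 2 * h' 2 + h 3 * h' 3 =
        h 0 * (h' 0 - h' 1 - h' 2 + h' 3) + (h 0 - h 1) * (h' 1 - h' 3) +
          (h 0 - h 2) * (h' 2 - h' 3) + (h 0 - h 1 - h 2 + h 3) * h' 3 := by ring
    rw [e]
    have a1 : |h 0 * (h' 0 - h' 1 - h' 2 + h' 3)| ≤ c * (c' * W) := by
      rw [abs_mul]
      exact mul_le_mul (H.le 0) H'.dd (abs_nonneg _) hc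
    have a2 : |(h 0 - h 1) * (h' 1 - h' 3)| ≤ c * σ * (c' * τ) := by
      rw [abs_mul]
      exact mul_le_mul H.w1 H'.v2 (abs_nonneg _) (mul_nonneg hc hσ)
    have a3 : |(h 0 - h 2) * (h' 2 - h' 3)| ≤ c * τ * (c' * σ) := by
      rw [abs_mul]
      exact mul_le_mul H.v1 H'.w2 (abs_nonneg _) (mul_nonneg hc hτ)
    have a4 : |(h 0 - h 1 - h 2 + h 3) * h' 3| ≤ c * W * c' := by
      rw [abs_mul]
      exact mul_le_mul H.dd (H'.le 3) (abs_nonneg _) (mul_nonneg hc hW0)
    have a5 : c * σ * (c' * τ) ≤ c * c' * W := by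
      have := mul_le_mul_of_nonneg_left hW hcc
      nlinarith
    have a6 : c * τ * (c' * σ) ≤ c * c' * W := by
      have := mul_le_mul_of_nonneg_left hW hcc
      nlinarith
    have b1 := abs_add_le (h 0 * (h' 0 - h' 1 - h' 2 + h' 3) + (h 0 - h 1) * (h' 1 - h' 3) +
      (h 0 - h 2) * (h' 2 - h' 3)) ((h 0 - h 1 - h 2 + h 3) * h' 3)
    have b2 := abs_add_le (h 0 * (h' 0 - h' 1 - h' 2 + h' 3) + (h 0 - h 1) * (h' 1 - h' 3))
      ((h 0 - h 2) * (h' 2 - h' 3))
    have b3 := abs_add_le (h 0 * (h' 0 - h' 1 - h' 2 + h' 3)) ((h 0 - h 1) * (h' 1 - h' 3))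
    nlinarith

theorem T4.pow (H : T4 σ τ W c h) (hσ : 0 ≤ σ) (hτ : 0 ≤ τ) (hW : σ * τ ≤ W)
    (k : ℕ) : T4 σ τ W ((4 * c) ^ k) (fun i => h i ^ k) := by
  have hW0 : 0 ≤ W := (mul_nonneg hσ hτ).trans hW
  induction k with
  | zero =>
    have := t4_const (σ := σ) (τ := τ) (W := W) hσ hτ hW0 1
    rw [abs_one] at this
    simpa using this
  | succ k ih =>
    have h1 := ih.mul H hσ hτ hW
    have h2 : (fun i => h i ^ k * h i) = fun i => h i ^ (k + 1) := by
      funext i
      rw [pow_succ]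
    rw [h2] at h1
    refine h1.mono (le_of_eq ?_) hσ hτ hW0
    rw [pow_succ]
    ring

/-- Monomials. -/
theorem t4_prod {y : Fin 4 → ℕ → ℝ} {B : ℝ} (hB : 1 ≤ B) (hσ : 0 ≤ σ) (hτ : 0 ≤ τ)
    (hW : σ * τ ≤ W) (d : ℕ → ℕ) (s : Finset ℕ) (hd : ∀ i ∈ s, 1 ≤ d i)
    (hy : ∀ i ∈ s, T4 σ τ W B (fun j => y j i)) :
    T4 σ τ W ((16 * B) ^ ∑ i ∈ s, d i) (fun j => ∏ i ∈ s, y j i ^ d i) := by
  classical
  have hW0 : 0 ≤ W := (mul_nonneg hσ hτ).trans hW
  induction s using Finset.induction_on with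
  | empty =>
    have := t4_const (σ := σ) (τ := τ) (W := W) hσ hτ hW0 1
    rw [abs_one] at this
    simpa using this
  | insert a s ha ih =>
    have h1 := ih (fun i hi => hd i (Finset.mem_insert_of_mem hi))
      (fun i hi => hy i (Finset.mem_insert_of_mem hi))
    have h2 := (hy a (Finset.mem_insert_self a s)).pow hσ hτ hW (d a)
    have h3 := h2.mul h1 hσ hτ hW
    have h4 : (fun j => y j a ^ d a * ∏ i ∈ s, y j i ^ d i) =
        fun j => ∏ i ∈ insert a s, y j i ^ d i := by
      funext j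
      rw [Finset.prod_insert ha]
    rw [h4] at h3
    refine h3.mono ?_ hσ hτ hW0
    rw [Finset.sum_insert ha, pow_add]
    refine mul_le_mul_of_nonneg_right ?_ (by positivity)
    have hda := hd a (Finset.mem_insert_self a s)
    have e1 : (16 * B) ^ d a = 4 ^ d a * (4 * B) ^ d a := by
      rw [← mul_pow]
      congr 1
      ring
    rw [e1]
    refine mul_le_mul_of_nonneg_right ?_ (by positivity)
    have := pow_le_pow_right₀ (show (1 : ℝ) ≤ 4 by norm_num) hda
    rwa [pow_one] at this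

/-- Polynomials. -/
theorem t4_eval {y : Fin 4 → ℕ → ℝ} {B : ℝ} (hB : 1 ≤ B) (hσ : 0 ≤ σ) (hτ : 0 ≤ τ)
    (hW : σ * τ ≤ W) {G : PN} {D : ℕ} (hD : ∀ k ∈ G.support, (∑ i ∈ k.support, k i) ≤ D)
    (hy : ∀ i ∈ G.vars, T4 σ τ W B (fun j => y j i)) :
    T4 σ τ W ((16 * B) ^ D * nrm (fun _ => 1) 1 G) (fun j => eval (y j) G) := by
  classical
  have hW0 : 0 ≤ W := (mul_nonneg hσ hτ).trans hW
  have key : ∀ S : Finset (ℕ →₀ ℕ), S ⊆ G.support →
      T4 σ τ W ((16 * B) ^ D * ∑ k ∈ S, |coeff k G|)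
        (fun j => ∑ k ∈ S, coeff k G * ∏ i ∈ k.support, y j i ^ k i) := by
    intro S
    induction S using Finset.induction_on with
    | empty =>
      intro _
      have := t4_const (σ := σ) (τ := τ) (W := W) hσ hτ hW0 0
      rw [abs_zero] at this
      simpa using this
    | insert a S ha ih =>
      intro hS
      have h1 := ih fun k hk => hS (Finset.mem_insert_of_mem hk)
      have haG := hS (Finset.mem_insert_self a S)
      have h2 := t4_prod hB hσ hτ hW (fun i => a i) a.support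
        (fun i hi => Nat.one_le_iff_ne_zero.2 (Finsupp.mem_support_iff.1 hi))
        (fun i hi => hy i ((mem_vars_iff_mem_support i).2 ⟨a, haG, hi⟩))
      have h3 : T4 σ τ W (|coeff a G| * (16 * B) ^ D)
          (fun j => coeff a G * ∏ i ∈ a.support, y j i ^ a i) := by
        have h16 : 1 ≤ 16 * B := by linarith
        have h5 := h2.mono (pow_le_pow_right₀ h16 (hD a haG)) hσ hτ hW0
        have ab : ∀ x y : ℝ, |coeff a G * x - coeff a G * y| = |coeff a G| * |x - y| := by
          intro x y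
          rw [← mul_sub, abs_mul]
        refine ⟨fun i => ?_, ?_, ?_, ?_, ?_, ?_⟩
        · rw [abs_mul]
          exact mul_le_mul_of_nonneg_left (h5.le i) (abs_nonneg _)
        · rw [ab, mul_assoc]
          exact mul_le_mul_of_nonneg_left h5.w1 (abs_nonneg _)
        · rw [ab, mul_assoc]
          exact mul_le_mul_of_nonneg_left h5.w2 (abs_nonneg _)
        · rw [ab, mul_assoc]
          exact mul_le_mul_of_nonneg_left h5.v1 (abs_nonneg _)
        · rw [ab, mul_assoc]
          exact mul_le_mul_of_nonneg_left h5.v2 (abs_nonneg _)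
        · rw [← mul_sub, ← mul_sub, ← mul_add, abs_mul, mul_assoc]
          exact mul_le_mul_of_nonneg_left h5.dd (abs_nonneg _)
      have h4 := h3.add h1
      have e1 : (fun j => coeff a G * ∏ i ∈ a.support, y j i ^ a i +
          ∑ k ∈ S, coeff k G * ∏ i ∈ k.support, y j i ^ k i) =
          fun j => ∑ k ∈ insert a S, coeff k G * ∏ i ∈ k.support, y j i ^ k i := by
        funext j
        rw [Finset.sum_insert ha]
      rw [e1] at h4
      refine h4.mono (le_of_eq ?_) hσ hτ hW0
      rw [Finset.sum_insert ha]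
      ring
  have h1 := key G.support (Finset.Subset.refl _)
  have e1 : (fun j => ∑ k ∈ G.support, coeff k G * ∏ i ∈ k.support, y j i ^ k i) =
      fun j => eval (y j) G := by
    funext j
    rw [eval_eq]
  have e2 : ∑ k ∈ G.support, |coeff k G| = nrm (fun _ => 1) 1 G := by
    unfold nrm
    refine Finset.sum_congr rfl fun k _ => ?_
    rw [one_pow, mul_one]
  rw [e1, e2] at h1
  exact h1

end T4

/-- **Second variation.** A polynomial which is bounded on the natural box. -/
theorem vr2 (n K : ℕ) : ∃ (C : ℝ) (D : ℕ), 1 ≤ C ∧ ∀ (m : ℕ) (g : ℕ → ℕ) (Φ : ℕ → PN) (F : PN)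
    (S B σ τ W : ℝ) (b : Fin 4 → ℕ → ℝ), m ≤ n → TriN Φ → (∀ i < m, (Φ i).totalDegree ≤ K) →
    1 ≤ B → 0 ≤ S → 0 ≤ σ → 0 ≤ τ → σ * τ ≤ W → F.vars ⊆ range m → F.totalDegree ≤ K →
    (∀ b : ℕ → ℝ, (∀ i < m, |nat g Φ b i| ≤ 1) → |eval b F| ≤ S) →
    (∀ i < m, T4 σ τ W B (fun j => nat g Φ (b j) i)) →
    T4 σ τ W (C * B ^ D * S) (fun j => eval (b j) F) := by
  choose C hC h using fun m => Pool.SYS35.nrm_of_sup m (K * (K + 1) ^ m)
  set D := K * (K + 1) ^ n with hD
  set C₁ := ∑ m ∈ range (n + 1), C m with hC₁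
  have hCm : ∀ m ≤ n, C m ≤ C₁ := fun m hm =>
    Finset.single_le_sum (f := C) (fun i _ => by linarith [hC i]) (mem_range.2 (by omega))
  have hC1 : 1 ≤ C₁ := (hC 0).trans (hCm 0 (Nat.zero_le _))
  refine ⟨16 ^ D * C₁, D, one_le_mul_of_one_le_of_one_le (one_le_pow₀ (by norm_num)) hC1, ?_⟩
  intro m g Φ F S B σ τ W b hm hΦ hK hB hS hσ hτ hW hv hF hs hT
  have hW0 : 0 ≤ W := (mul_nonneg hσ hτ).trans hW
  have dK : K * (K + 1) ^ m ≤ D := by
    rw [hD]
    exact Nat.mul_le_mul_left _ (Nat.pow_le_pow_right (Nat.succ_pos _) hm)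
  set G := bind₁ (nuc g Φ) F with hG
  have vG : G.vars ⊆ range m := vars_fr hΦ hv
  have dG : G.totalDegree ≤ K * (K + 1) ^ m := deg_fr hΦ hK hv hF
  have nG : nrm (fun _ => 1) 1 G ≤ C m * S := by
    refine h m (fun _ => 1) 1 G S one_pos vG dG fun z hz => ?_
    rw [hG, eval_fr']
    refine hs _ fun i hi => ?_
    rw [nat_pt hΦ]
    have := hz i hi
    rwa [one_pow] at this
  have w1 : ∀ k ∈ G.support, (∑ i ∈ k.support, k i) ≤ D := fun k hk =>
    ((le_totalDegree hk).trans dG).trans dK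
  have main := t4_eval (y := fun j => nat g Φ (b j)) hB hσ hτ hW w1
    (fun i hi => hT i (mem_range.1 (vG hi)))
  have e1 : (fun j => eval (nat g Φ (b j)) G) = fun j => eval (b j) F := by
    funext j
    rw [hG, eval_fr hΦ]
  rw [e1] at main
  refine main.mono ?_ hσ hτ hW0
  have e2 : nrm (fun _ => 1) 1 G ≤ C₁ * S :=
    nG.trans (mul_le_mul_of_nonneg_right (hCm m hm) hS)
  calc (16 * B) ^ D * nrm (fun _ => 1) 1 G ≤ (16 * B) ^ D * (C₁ * S) :=
        mul_le_mul_of_nonneg_left e2 (by positivity)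
    _ = 16 ^ D * C₁ * B ^ D * S := by
        rw [mul_pow]
        ring

/-- A path of frames, with the weights `σ`, `τ` of the differences and `W` of the second
differences. -/
structure Pth4 (n K s : ℕ) (g : ℕ → ℕ → ℕ) (Φ : ℕ → ℕ → PN) (σ τ W : ℕ → ℝ)
    (up : ℕ → Prop) (N E : ℝ) : Prop where
  sN : (s : ℝ) ≤ N
  N1 : 1 ≤ N
  E1 : 1 ≤ E
  tri : ∀ k ≤ s, TriN (Φ k)
  deg : ∀ k ≤ s, ∀ i ≤ n, (Φ k i).totalDegree ≤ K
  σp : ∀ k ≤ s, 0 < σ k
  τp : ∀ k ≤ s, 0 < τ k
  στ : ∀ k ≤ s, σ k * τ k ≤ W k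
  Wτ : ∀ k ≤ s, W k ≤ τ k
  lev0 : ∀ i, 1 ≤ i → i < n → ¬ up i → ∀ k ≤ s, ∀ k' ≤ k,
    (2 : ℝ) ^ g k i * W k' ≤ E * W k * 2 ^ g k' i
  levs : ∀ i, 1 ≤ i → i < n → up i → ∀ k' ≤ s, ∀ k ≤ k',
    (2 : ℝ) ^ g k i * W k' ≤ E * W k * 2 ^ g k' i
  adj : ∀ k < s, ∀ l, 1 ≤ l → l ≤ n → ∀ b : ℕ → ℝ, (∀ i < l, |nat (g k) (Φ k) b i| ≤ 1) →
    |eval b (Φ k l) - eval b (Φ (k + 1) l)| ≤ E / 2 ^ g k l

/-- The second difference. -/
def d2 (h : Fin 4 → ℝ) : ℝ := h 0 - h 1 - h 2 + h 3

theorem d2_mul (a : ℝ) (h : Fin 4 → ℝ) : d2 (fun j => a * h j) = a * d2 h := by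
  unfold d2
  ring

theorem d2_sub (h h' : Fin 4 → ℝ) : d2 (fun j => h j - h' j) = d2 h - d2 h' := by
  unfold d2
  ring

theorem pth4_aux (n K : ℕ) : ∀ m ≤ n, ∃ (C : ℝ) (D : ℕ), 1 ≤ C ∧ ∀ (s : ℕ) (g : ℕ → ℕ → ℕ)
    (Φ : ℕ → ℕ → PN) (σ τ W : ℕ → ℝ) (up : ℕ → Prop) (N E A : ℝ),
    Pth4 n K s g Φ σ τ W up N E → 1 ≤ A → ∀ b : Fin 4 → ℕ → ℝ, (∀ j, b j 0 = b 0 0) →
    (∀ k ≤ s, ∀ i < n, ∀ j, |nat (g k) (Φ k) (b j) i| ≤ A) →
    (∀ k ≤ s, ∀ i < n, |nat (g k) (Φ k) (b 0) i - nat (g k) (Φ k) (b 1) i| ≤ A * σ k) →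
    (∀ k ≤ s, ∀ i < n, |nat (g k) (Φ k) (b 2) i - nat (g k) (Φ k) (b 3) i| ≤ A * σ k) →
    (∀ k ≤ s, ∀ i < n, |nat (g k) (Φ k) (b 0) i - nat (g k) (Φ k) (b 2) i| ≤ A * τ k) →
    (∀ i, 1 ≤ i → i < n → ¬ up i → |d2 fun j => nat (g 0) (Φ 0) (b j) i| ≤ A * W 0) →
    (∀ i, 1 ≤ i → i < n → up i → |d2 fun j => nat (g s) (Φ s) (b j) i| ≤ A * W s) →
    (∀ k ≤ s, ∀ i < m, |d2 fun j => nat (g k) (Φ k) (b j) i| ≤ C * (N * E * A) ^ D * W k) ∧
    ∀ k < s, ∀ l ≤ m, |d2 fun j => eval (b j) (Φ k l) - eval (b j) (Φ (k + 1) l)| ≤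
      C * (N * E * A) ^ D * W k / 2 ^ g k l := by
  obtain ⟨C₀, D₀, hC₀, h₀⟩ := vr2 n K
  intro m
  induction m with
  | zero =>
    intro _
    refine ⟨1, 0, le_rfl, ?_⟩
    intro s g Φ σ τ W up N E A H hA b b0 _ _ _ _ hb hb'
    refine ⟨fun k _ _ hi => absurd hi (Nat.not_lt_zero _), fun k hk l hl => ?_⟩
    obtain rfl : l = 0 := by omega
    have h1 := H.σp k hk.le
    have h2 := H.τp k hk.le
    have h3 : 0 < W k := (mul_pos h1 h2).trans_le (H.στ k hk.le)
    have e : d2 (fun j => eval (b j) (Φ k 0) - eval (b j) (Φ (k + 1) 0)) = 0 := by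
      unfold d2
      dsimp only
      rw [ev_zero (H.tri k hk.le 0) (b 1) (b 0), ev_zero (H.tri (k + 1) hk 0) (b 1) (b 0),
        ev_zero (H.tri k hk.le 0) (b 2) (b 0), ev_zero (H.tri (k + 1) hk 0) (b 2) (b 0),
        ev_zero (H.tri k hk.le 0) (b 3) (b 0), ev_zero (H.tri (k + 1) hk 0) (b 3) (b 0)]
      ring
    rw [e, abs_zero]
    positivity
  | succ m ih =>
    intro hm
    obtain ⟨C, D, hC, h⟩ := ih (by omega)
    have hC0 : 0 < C := by linarith
    set C₂ := C₀ * (1 + (2 + C)) ^ D₀ with hC₂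
    set D₂ := (D + 1) * D₀ + 1 with hD₂
    have hC₂0 : 0 < C₂ := by rw [hC₂]; positivity
    refine ⟨(2 + C) + C₂, (D + 1) + D₂, by linarith, ?_⟩
    intro s g Φ σ τ W up N E A H hA b b0 hle hw1 hw2 hv1 hb hb'
    obtain ⟨h1, h2⟩ := h s g Φ σ τ W up N E A H hA b b0 hle hw1 hw2 hv1 hb hb'
    have hN := H.N1
    have hE := H.E1
    set V := N * E * A with hV
    have hNE : 1 ≤ N * E := one_le_mul_of_one_le_of_one_le hN hE
    have hV1 : 1 ≤ V := one_le_mul_of_one_le_of_one_le hNE hA
    have hV0 : 0 < V := by linarith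
    have hEV : E ≤ V := by
      rw [hV]
      have : E * 1 ≤ E * (N * A) :=
        mul_le_mul_of_nonneg_left (one_le_mul_of_one_le_of_one_le hN hA) (by linarith)
      nlinarith
    have hNEV : N * E ≤ V := by
      rw [hV]
      nlinarith
    have hEAV : E * A ≤ V := by
      rw [hV]
      have h0 : 0 < E * A := by nlinarith
      nlinarith
    have hAV : A ≤ V := by nlinarith
    have a5 : V ≤ V ^ (D + 1) := by
      have := pow_le_pow_right₀ hV1 (show 1 ≤ D + 1 by omega)
      rwa [pow_one] at this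
    have Wp : ∀ k ≤ s, 0 < W k := fun k hk =>
      (mul_pos (H.σp k hk) (H.τp k hk)).trans_le (H.στ k hk)
    set e : ℕ → ℕ → ℝ := fun k i => d2 fun j => eval (b j) (Φ k i) with he
    have he' : ∀ k i, d2 (fun j => eval (b j) (Φ k i) - eval (b j) (Φ (k + 1) i)) =
        e k i - e (k + 1) i := by
      intro k i
      rw [d2_sub (fun j => eval (b j) (Φ k i)) (fun j => eval (b j) (Φ (k + 1) i))]
    have hx : ∀ k i, d2 (fun j => nat (g k) (Φ k) (b j) i) =
        2 ^ g k i * ((d2 fun j => b j i) - e k i) := by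
      intro k i
      unfold nat
      rw [d2_mul, d2_sub (fun j => b j i) (fun j => eval (b j) (Φ k i))]
    -- a sum over the path
    have sumb : ∀ (k a c i : ℕ), k ≤ s → c ≤ s → i = m → (∀ k' ∈ Ico a c,
        (2 : ℝ) ^ g k i * W k' ≤ E * W k * 2 ^ g k' i) →
        |∑ k' ∈ Ico a c, 2 ^ g k i * (e k' i - e (k' + 1) i)| ≤ C * V ^ D * V * W k := by
      intro k a c i hk hc him hlev
      have rk := Wp k hk
      have t2 : ∀ k' ∈ Ico a c, |(2 : ℝ) ^ g k i * (e k' i - e (k' + 1) i)| ≤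
          C * V ^ D * E * W k := by
        intro k' hk'
        have hk2 := mem_Ico.1 hk'
        have a1 := h2 k' (by omega) i him.le
        rw [he'] at a1
        have a2 := hlev k' hk'
        have a3 := Wp k' (by omega)
        rw [abs_mul, abs_of_pos (by positivity)]
        calc (2 : ℝ) ^ g k i * |e k' i - e (k' + 1) i| ≤
              2 ^ g k i * (C * V ^ D * W k' / 2 ^ g k' i) :=
              mul_le_mul_of_nonneg_left a1 (by positivity)
          _ = C * V ^ D * (2 ^ g k i * W k' / 2 ^ g k' i) := by ring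
          _ ≤ C * V ^ D * (E * W k) := by
              refine mul_le_mul_of_nonneg_left ?_ (by positivity)
              rw [div_le_iff₀ (by positivity)]
              exact a2
          _ = C * V ^ D * E * W k := by ring
      refine (abs_sum_le_sum_abs _ _).trans ((sum_le_sum t2).trans ?_)
      rw [sum_const, Nat.card_Ico, nsmul_eq_mul]
      have a4 : ((c - a : ℕ) : ℝ) ≤ N := by
        have h3 : c - a ≤ s := by omega
        exact le_trans (by exact_mod_cast h3) H.sN
      calc ((c - a : ℕ) : ℝ) * (C * V ^ D * E * W k) ≤ N * (C * V ^ D * E * W k) :=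
            mul_le_mul_of_nonneg_right a4 (by positivity)
        _ = C * V ^ D * (N * E) * W k := by ring
        _ ≤ C * V ^ D * V * W k := by
            refine mul_le_mul_of_nonneg_right ?_ rk.le
            exact mul_le_mul_of_nonneg_left hNEV (by positivity)
    -- the telescope
    have tele : ∀ (i a k : ℕ), e (a + k) i = e a i -
        ∑ k' ∈ Ico a (a + k), (e k' i - e (k' + 1) i) := by
      intro i a k
      induction k with
      | zero => simp
      | succ k ihk =>
        rw [← add_assoc, sum_Ico_succ_top (Nat.le_add_right a k), ← sub_sub, ← ihk]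
        ring
    -- the coordinate m
    have g1 : ∀ k ≤ s, ∀ i < m + 1, |d2 fun j => nat (g k) (Φ k) (b j) i| ≤
        (2 + C) * V ^ (D + 1) * W k := by
      intro k hk i hi
      have rk := Wp k hk
      rcases Nat.lt_or_ge i m with hi' | hi'
      · refine (h1 k hk i hi').trans (mul_le_mul_of_nonneg_right ?_ rk.le)
        refine mul_le_mul (by linarith) (pow_le_pow_right₀ hV1 (Nat.le_succ _)) (by positivity)
          (by linarith)
      · obtain rfl : i = m := by omega
        rcases Nat.eq_zero_or_pos i with rfl | hi0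
        · have e0 : d2 (fun j => nat (g k) (Φ k) (b j) 0) = 0 := by
            unfold d2 nat
            dsimp only
            rw [b0 1, b0 2, b0 3, ev_zero (H.tri k hk 0) (b 1) (b 0),
              ev_zero (H.tri k hk 0) (b 2) (b 0), ev_zero (H.tri k hk 0) (b 3) (b 0)]
            ring
          rw [e0, abs_zero]
          positivity
        have fin : ∀ (x y : ℝ), |x| ≤ E * A * W k → |y| ≤ C * V ^ D * V * W k →
            |x + y| ≤ (2 + C) * V ^ (D + 1) * W k := by
          intro x y hx hy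
          refine (abs_add_le _ _).trans ((add_le_add hx hy).trans ?_)
          calc E * A * W k + C * V ^ D * V * W k ≤ V * W k + C * V ^ D * V * W k := by
                have := mul_le_mul_of_nonneg_right hEAV rk.le
                linarith
            _ = (V + C * V ^ (D + 1)) * W k := by
                rw [pow_succ]
                ring
            _ ≤ (2 * V ^ (D + 1) + C * V ^ (D + 1)) * W k := by
                refine mul_le_mul_of_nonneg_right ?_ rk.le
                have : 0 < V ^ (D + 1) := by positivity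
                linarith
            _ = (2 + C) * V ^ (D + 1) * W k := by ring
        by_cases hup : up i
        · -- compare with the frame s
          have e2 : d2 (fun j => nat (g k) (Φ k) (b j) i) =
              2 ^ g k i / 2 ^ g s i * (d2 fun j => nat (g s) (Φ s) (b j) i) +
              (-∑ k' ∈ Ico k s, 2 ^ g k i * (e k' i - e (k' + 1) i)) := by
            have e3 := tele i k (s - k)
            rw [show k + (s - k) = s by omega] at e3
            rw [← mul_sum, hx, hx]
            have e4 : (2 : ℝ) ^ g k i / 2 ^ g s i * (2 ^ g s i * ((d2 fun j => b j i) - e s i)) =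
                2 ^ g k i * ((d2 fun j => b j i) - e s i) := by
              field_simp
            rw [e4, ← mul_neg, ← mul_add]
            congr 1
            linarith
          rw [e2]
          have l0 := H.levs i hi0 (by omega) hup s le_rfl k hk
          refine fin _ _ ?_ ?_
          · rw [abs_mul, abs_of_pos (by positivity)]
            have a2 := hb' i hi0 (by omega) hup
            calc (2 : ℝ) ^ g k i / 2 ^ g s i * |d2 fun j => nat (g s) (Φ s) (b j) i|
                ≤ 2 ^ g k i / 2 ^ g s i * (A * W s) :=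
                  mul_le_mul_of_nonneg_left a2 (by positivity)
              _ = A * (2 ^ g k i * W s / 2 ^ g s i) := by ring
              _ ≤ A * (E * W k) := by
                  refine mul_le_mul_of_nonneg_left ?_ (by linarith)
                  rw [div_le_iff₀ (by positivity)]
                  exact l0
              _ = E * A * W k := by ring
          · rw [abs_neg]
            refine sumb k k s i hk le_rfl rfl fun k' hk' => ?_
            exact H.levs i hi0 (by omega) hup k' (by have := mem_Ico.1 hk'; omega) k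
              (mem_Ico.1 hk').1
        · -- compare with the frame 0
          have e2 : d2 (fun j => nat (g k) (Φ k) (b j) i) =
              2 ^ g k i / 2 ^ g 0 i * (d2 fun j => nat (g 0) (Φ 0) (b j) i) +
              ∑ k' ∈ Ico 0 k, 2 ^ g k i * (e k' i - e (k' + 1) i) := by
            have e3 := tele i 0 k
            rw [zero_add] at e3
            rw [← mul_sum, hx, hx]
            have e4 : (2 : ℝ) ^ g k i / 2 ^ g 0 i * (2 ^ g 0 i * ((d2 fun j => b j i) - e 0 i)) =
                2 ^ g k i * ((d2 fun j => b j i) - e 0 i) := by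
              field_simp
            rw [e4, ← mul_add]
            congr 1
            linarith
          rw [e2]
          have l0 := H.lev0 i hi0 (by omega) hup k hk 0 (Nat.zero_le _)
          refine fin _ _ ?_ ?_
          · rw [abs_mul, abs_of_pos (by positivity)]
            have a2 := hb i hi0 (by omega) hup
            calc (2 : ℝ) ^ g k i / 2 ^ g 0 i * |d2 fun j => nat (g 0) (Φ 0) (b j) i|
                ≤ 2 ^ g k i / 2 ^ g 0 i * (A * W 0) :=
                  mul_le_mul_of_nonneg_left a2 (by positivity)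
              _ = A * (2 ^ g k i * W 0 / 2 ^ g 0 i) := by ring
              _ ≤ A * (E * W k) := by
                  refine mul_le_mul_of_nonneg_left ?_ (by linarith)
                  rw [div_le_iff₀ (by positivity)]
                  exact l0
              _ = E * A * W k := by ring
          · refine sumb k 0 k i hk hk rfl fun k' hk' => ?_
            exact H.lev0 i hi0 (by omega) hup k hk k' (mem_Ico.1 hk').2.le
    refine ⟨fun k hk i hi => ?_, fun k hk l hl => ?_⟩
    · have rk := Wp k hk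
      refine (g1 k hk i hi).trans (mul_le_mul_of_nonneg_right ?_ rk.le)
      exact mul_le_mul (by linarith) (pow_le_pow_right₀ hV1 (by omega)) (by positivity)
        (by linarith)
    · have rk := Wp k hk.le
      rcases Nat.lt_or_ge m l with hl' | hl'
      · obtain rfl : l = m + 1 := by omega
        have pV : 0 < V ^ (D + 1) := by positivity
        set B := (1 + (2 + C)) * V ^ (D + 1) with hB
        have hAB : A ≤ B := by
          rw [hB]
          nlinarith
        have hB1 : 1 ≤ B := hA.trans hAB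
        have hT : ∀ i < m + 1, T4 (σ k) (τ k) (W k) B (fun j => nat (g k) (Φ k) (b j) i) := by
          intro i hi
          have dd := g1 k hk.le i hi
          have c1 : (2 + C) * V ^ (D + 1) ≤ B := by
            rw [hB]
            nlinarith
          refine ⟨fun j => (hle k hk.le i (by omega) j).trans hAB,
            (hw1 k hk.le i (by omega)).trans (mul_le_mul_of_nonneg_right hAB (H.σp k hk.le).le),
            (hw2 k hk.le i (by omega)).trans (mul_le_mul_of_nonneg_right hAB (H.σp k hk.le).le),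
            (hv1 k hk.le i (by omega)).trans (mul_le_mul_of_nonneg_right hAB (H.τp k hk.le).le),
            ?_, ?_⟩
          · have v1 := hv1 k hk.le i (by omega)
            have t1 := H.Wτ k hk.le
            have t2 := H.τp k hk.le
            have e1 : nat (g k) (Φ k) (b 1) i - nat (g k) (Φ k) (b 3) i =
                (nat (g k) (Φ k) (b 0) i - nat (g k) (Φ k) (b 2) i) -
                  d2 fun j => nat (g k) (Φ k) (b j) i := by
              unfold d2
              ring
            rw [e1]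
            refine (abs_sub _ _).trans ((add_le_add v1 dd).trans ?_)
            have e2 : (2 + C) * V ^ (D + 1) * W k ≤ (2 + C) * V ^ (D + 1) * τ k :=
              mul_le_mul_of_nonneg_left t1 (by positivity)
            have e3 : A * τ k ≤ V ^ (D + 1) * τ k :=
              mul_le_mul_of_nonneg_right (hAV.trans a5) t2.le
            have e4 : B * τ k = V ^ (D + 1) * τ k + (2 + C) * V ^ (D + 1) * τ k := by
              rw [hB]
              ring
            rw [e4]
            linarith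
          · have e1 : nat (g k) (Φ k) (b 0) i - nat (g k) (Φ k) (b 1) i -
                nat (g k) (Φ k) (b 2) i + nat (g k) (Φ k) (b 3) i =
                d2 fun j => nat (g k) (Φ k) (b j) i := rfl
            rw [e1]
            exact dd.trans (mul_le_mul_of_nonneg_right c1 rk.le)
        have main := h₀ (m + 1) (g k) (Φ k) (Φ k (m + 1) - Φ (k + 1) (m + 1))
          (E / 2 ^ g k (m + 1)) B (σ k) (τ k) (W k) b
          hm (H.tri k hk.le) (fun i hi => H.deg k hk.le i (by omega)) hB1 (by positivity)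
          (H.σp k hk.le).le (H.τp k hk.le).le (H.στ k hk.le)
          (AdxRow.vars_sub_le (H.tri k hk.le (m + 1)) (H.tri (k + 1) hk (m + 1)))
          ((totalDegree_sub _ _).trans (max_le (H.deg k hk.le _ hm) (H.deg (k + 1) hk _ hm)))
          (fun b hb => by
            rw [map_sub]
            exact H.adj k hk (m + 1) (by omega) hm b hb)
          hT
        have md := main.dd
        have e1 : eval (b 0) (Φ k (m + 1) - Φ (k + 1) (m + 1)) -
            eval (b 1) (Φ k (m + 1) - Φ (k + 1) (m + 1)) -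
            eval (b 2) (Φ k (m + 1) - Φ (k + 1) (m + 1)) +
            eval (b 3) (Φ k (m + 1) - Φ (k + 1) (m + 1)) =
            d2 fun j => eval (b j) (Φ k (m + 1)) - eval (b j) (Φ (k + 1) (m + 1)) := by
          unfold d2
          rw [map_sub, map_sub, map_sub, map_sub]
        rw [e1] at md
        refine md.trans ?_
        have b2 : B ^ D₀ = (1 + (2 + C)) ^ D₀ * V ^ ((D + 1) * D₀) := by
          rw [hB, mul_pow, ← pow_mul]
        calc C₀ * B ^ D₀ * (E / 2 ^ g k (m + 1)) * W k
            ≤ C₀ * B ^ D₀ * (V / 2 ^ g k (m + 1)) * W k := by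
              refine mul_le_mul_of_nonneg_right ?_ rk.le
              refine mul_le_mul_of_nonneg_left ?_ (by positivity)
              exact div_le_div_of_nonneg_right hEV (by positivity)
          _ = C₂ * V ^ D₂ * W k / 2 ^ g k (m + 1) := by
              rw [b2, hC₂, hD₂, pow_add, pow_one]
              ring
          _ ≤ (2 + C + C₂) * V ^ (D + 1 + D₂) * W k / 2 ^ g k (m + 1) := by
              refine div_le_div_of_nonneg_right ?_ (by positivity)
              refine mul_le_mul_of_nonneg_right ?_ rk.le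
              exact mul_le_mul (by linarith) (pow_le_pow_right₀ hV1 (by omega)) (by positivity)
                (by positivity)
      · refine (h2 k hk l hl').trans ?_
        refine div_le_div_of_nonneg_right ?_ (by positivity)
        refine mul_le_mul_of_nonneg_right ?_ rk.le
        exact mul_le_mul (by linarith) (pow_le_pow_right₀ hV1 (by omega)) (by positivity)
          (by positivity)

/-- **Second differences along a path of frames.** -/
theorem pth4 (n K : ℕ) : ∃ (C : ℝ) (D : ℕ), 1 ≤ C ∧ ∀ (s : ℕ) (g : ℕ → ℕ → ℕ)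
    (Φ : ℕ → ℕ → PN) (σ τ W : ℕ → ℝ) (up : ℕ → Prop) (N E A : ℝ),
    Pth4 n K s g Φ σ τ W up N E → 1 ≤ A → ∀ b : Fin 4 → ℕ → ℝ, (∀ j, b j 0 = b 0 0) →
    (∀ k ≤ s, ∀ i < n, ∀ j, |nat (g k) (Φ k) (b j) i| ≤ A) →
    (∀ k ≤ s, ∀ i < n, |nat (g k) (Φ k) (b 0) i - nat (g k) (Φ k) (b 1) i| ≤ A * σ k) →
    (∀ k ≤ s, ∀ i < n, |nat (g k) (Φ k) (b 2) i - nat (g k) (Φ k) (b 3) i| ≤ A * σ k) →
    (∀ k ≤ s, ∀ i < n, |nat (g k) (Φ k) (b 0) i - nat (g k) (Φ k) (b 2) i| ≤ A * τ k) →
    (∀ i, 1 ≤ i → i < n → ¬ up i → |d2 fun j => nat (g 0) (Φ 0) (b j) i| ≤ A * W 0) →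
    (∀ i, 1 ≤ i → i < n → up i → |d2 fun j => nat (g s) (Φ s) (b j) i| ≤ A * W s) →
    (∀ k ≤ s, ∀ i < n, |d2 fun j => nat (g k) (Φ k) (b j) i| ≤ C * (N * E * A) ^ D * W k) ∧
    ∀ k < s, ∀ l ≤ n, |d2 fun j => eval (b j) (Φ k l) - eval (b j) (Φ (k + 1) l)| ≤
      C * (N * E * A) ^ D * W k / 2 ^ g k l :=
  pth4_aux n K n le_rfl

end Pool.MIC24
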